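import Pool.Agent.Y870.KV.Inj

/-!
# Products of conjugacy classes under Kervaire extensions: groups with a free quotient, `r ≥ 9`

Let `G` be any group with a homomorphism onto the free group of rank two, and let `x`, `u` be
elements of `G` which are sent to the two generators. The single equation `t t x t⁻¹ u = 1` in one
unknown `t` (with three occurrences of `t`, exponent sum one) gives an injective Kervaire extension
`G → H` such that for every `r ≥ 9` there are `g_1, …, g_r` in `G` with `1 ∈ ∏ g_i ^ H` and
`1 ∉ ∏ g_i ^ G`.

The starting file `FreeGroupOneUnknown` has one free group `G` of rank three and `r = 23`. For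
equations with at most two occurrences of unknowns the implication of the problem is true for all
groups (starting file `SparseSystems`).
-/

set_option autoImplicit false

namespace Pool.Agent.Results.MP_9999b4_al.FreeQuotients

open Pool.Agent.Y870.KV

/-- the free product of `G` and the free group on `t_1, ..., t_n` -/
abbrev Words (G : Type) [Group G] (n : ℕ) : Type := Monoid.Coprod G (FreeGroup (Fin n))

/-- the exponent sum of `t_i` in a word -/
def expSum {G : Type} [Group G] {n : ℕ} (i : Fin n) (u : Words G n) : ℤ :=
  Multiplicative.toAdd (Monoid.Coprod.lift (1 : G →* Multiplicative ℤ)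
    (FreeGroup.lift (fun k : Fin n => if k = i then Multiplicative.ofAdd (1 : ℤ) else 1)) u)

/-- a nonsingular system -/
def Nonsingular {G : Type} [Group G] {n : ℕ} (w : Fin n → Words G n) : Prop :=
  (Matrix.of (fun i j : Fin n => expSum i (w j))).det ≠ 0

/-- the group `H` of a system -/
abbrev Ext {G : Type} [Group G] {n : ℕ} (w : Fin n → Words G n) : Type :=
  Words G n ⧸ Subgroup.normalClosure (Set.range w)

/-- the map from `G` to `H` -/
def incl {G : Type} [Group G] {n : ℕ} (w : Fin n → Words G n) : G →* Ext w :=
  (QuotientGroup.mk' (Subgroup.normalClosure (Set.range w))).comp Monoid.Coprod.inl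

/-- `1` is in the product of the conjugacy classes of `g_1, ..., g_r` -/
def OneInProduct {A : Type} [Group A] {r : ℕ} (g : Fin r → A) : Prop :=
  ∃ x : Fin r → A, (List.ofFn (fun i => x i * g i * (x i)⁻¹)).prod = 1

/-- the unknown `t` -/
def unknown (G : Type) [Group G] : Words G 1 := Monoid.Coprod.inr (FreeGroup.of 0)

/-- the system which consists of the single word `t t x t⁻¹ u` in one unknown `t` -/
def weightThree {G : Type} [Group G] (x u : G) : Fin 1 → Words G 1 := fun _ =>
  unknown G * unknown G * Monoid.Coprod.inl x * (unknown G)⁻¹ * Monoid.Coprod.inl u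

/-- the relation in `H` -/
theorem rel {G : Type} [Group G] (x u : G) :
    (QuotientGroup.mk' (Subgroup.normalClosure (Set.range (weightThree x u))) (unknown G)) *
      (QuotientGroup.mk' _ (unknown G)) * incl (weightThree x u) x *
      (QuotientGroup.mk' _ (unknown G))⁻¹ * incl (weightThree x u) u = 1 := by
  have h : weightThree x u 0 ∈ Subgroup.normalClosure (Set.range (weightThree x u)) :=
    Subgroup.subset_normalClosure ⟨0, rfl⟩
  have h2 := (QuotientGroup.eq_one_iff _).2 h
  exact h2

/-- maps out of `H` -/
theorem exists_map {G P : Type} [Group G] [Group P] (x u : G) (j : G →* P) (t : P)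
    (h : t * t * j x * t⁻¹ * j u = 1) :
    ∃ β : Ext (weightThree x u) →* P, (∀ g, β (incl (weightThree x u) g) = j g) ∧
      β (QuotientGroup.mk' _ (unknown G)) = t := by
  have hw : ∀ v ∈ Set.range (weightThree x u), (Monoid.Coprod.lift j
      (FreeGroup.lift (fun _ : Fin 1 => t))) v = 1 := by
    rintro _ ⟨i, rfl⟩
    simp only [weightThree, unknown, map_mul, map_inv, Monoid.Coprod.lift_apply_inl,
      Monoid.Coprod.lift_apply_inr, FreeGroup.lift_apply_of]
    exact h
  refine ⟨QuotientGroup.lift _ (Monoid.Coprod.lift j (FreeGroup.lift (fun _ : Fin 1 => t)))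
      (fun v hv => (Subgroup.normalClosure_le_normal (N := MonoidHom.ker _)
        (fun v hv => hw v hv)) hv), ?_, ?_⟩
  · intro g
    show (Monoid.Coprod.lift j (FreeGroup.lift (fun _ : Fin 1 => t))) (Monoid.Coprod.inl g) = j g
    rw [Monoid.Coprod.lift_apply_inl]
  · show (Monoid.Coprod.lift j (FreeGroup.lift (fun _ : Fin 1 => t)))
      (Monoid.Coprod.inr (FreeGroup.of 0)) = t
    rw [Monoid.Coprod.lift_apply_inr, FreeGroup.lift_apply_of]

/-- **Groups with a nonabelian free quotient.** Let `ρ` be a homomorphism from a group `G` to the free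
group of rank two and let `x`, `u` be elements of `G` which `ρ` sends to the two generators (they exist
if and only if `ρ` is surjective; every group with a nonabelian free quotient has such `ρ`, `x`, `u`).
Then the word `t t x t⁻¹ u` in one unknown has exponent sum one, `G → H` is injective, and for every
`r ≥ 9` there are `g_1, …, g_r` in `G` with `1 ∈ ∏ g_i ^ H` but `1 ∉ ∏ g_i ^ G`. If `G` is the free group
on `x`, `u`, then `H` is a free group of rank two, too. -/
theorem result :
    (∀ (G : Type) [Group G] (ρ : G →* FreeGroup (Fin 2)) (x u : G),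
      ρ x = FreeGroup.of 0 → ρ u = FreeGroup.of 1 →
      expSum 0 (weightThree x u 0) = 1 ∧ Nonsingular (weightThree x u) ∧
        Function.Injective (incl (weightThree x u)) ∧
        ∀ r : ℕ, 9 ≤ r → ∃ g : Fin r → G,
          OneInProduct (fun i => incl (weightThree x u) (g i)) ∧ ¬ OneInProduct g) ∧
    Nonempty (Ext (weightThree (FreeGroup.of 0 : FreeGroup (Fin 2)) (FreeGroup.of 1)) ≃*
      FreeGroup (Fin 2)) := by
  refine ⟨?_, ?_⟩
  · intro G _ ρ x u hx hu
    have he : expSum 0 (weightThree x u 0) = 1 := by
      simp [expSum, weightThree, unknown]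
    refine ⟨he, ?_, ?_, ?_⟩
    · rw [Nonsingular, Matrix.det_fin_one, Matrix.of_apply, he]
      exact one_ne_zero
    · obtain ⟨P, _, j, t, hj, ht⟩ := exists_amalgam ρ hx hu
      obtain ⟨β, hβ, -⟩ := exists_map x u j t ht
      intro a b hab
      apply hj
      rw [← hβ a, ← hβ b, hab]
    · intro r hr
      obtain ⟨s, rfl⟩ := Nat.exists_eq_add_of_le hr
      obtain ⟨g, hg⟩ := Pool.Agent.Y874.StB.exists_fn (el x u s) (el_length x u s)
      refine ⟨g, ?_, ?_⟩
      · obtain ⟨L, h1, h2⟩ := in_H (rel x u) s
        have key : OIP (fun i => incl (weightThree x u) (g i)) := by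
          rw [oip_iff]
          refine ⟨L, ?_, h2⟩
          rw [h1]
          have e : (List.ofFn fun i => incl (weightThree x u) (g i)) =
              (List.ofFn g).map (incl (weightThree x u)) := by
            rw [List.map_ofFn]; rfl
          rw [e, hg, el, el, List.map_cons, List.map_map, map_inv, ps_comp]
          congr 1
          apply List.map_congr_left
          intro o _
          exact (ps_comp _ _ _ _).symm
        exact key
      · intro h
        have h' : OIP g := h
        rw [oip_iff] at h'
        obtain ⟨L, h1, h2⟩ := h'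
        rw [hg] at h1
        exact not_in_G ρ hx hu s L h1 h2
  · set w := weightThree (FreeGroup.of 0 : FreeGroup (Fin 2)) (FreeGroup.of 1) with hw
    obtain ⟨β, hβ, hβt⟩ : ∃ β : Ext w →* FreeGroup (Fin 2), (∀ g, β (incl w g) = ta g) ∧
        β (QuotientGroup.mk' _ (unknown _)) = FreeGroup.of 1 :=
      exists_map (FreeGroup.of 0 : FreeGroup (Fin 2)) (FreeGroup.of 1) ta
        (FreeGroup.of 1) (by rw [ta_zero, ta_one]; group)
    let γ : FreeGroup (Fin 2) →* Ext w :=
      FreeGroup.lift ![incl w (FreeGroup.of 0), QuotientGroup.mk' _ (unknown _)]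
    have hγ0 : γ (FreeGroup.of 0) = incl w (FreeGroup.of 0) := by
      rw [FreeGroup.lift_apply_of]; rfl
    have hγ1 : γ (FreeGroup.of 1) = QuotientGroup.mk' _ (unknown _) := by
      rw [FreeGroup.lift_apply_of]; rfl
    refine ⟨MonoidHom.toMulEquiv β γ ?_ ?_⟩
    · -- γ ∘ β = id
      have hr := rel (FreeGroup.of 0 : FreeGroup (Fin 2)) (FreeGroup.of 1)
      rw [← hw] at hr
      apply QuotientGroup.monoidHom_ext
      apply Monoid.Coprod.hom_ext
      · apply FreeGroup.ext_hom
        intro i
        show γ (β (incl w (FreeGroup.of i))) = incl w (FreeGroup.of i)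
        rw [hβ]
        fin_cases i
        · show γ (ta (FreeGroup.of 0)) = incl w (FreeGroup.of 0)
          rw [ta_zero, hγ0]
        · show γ (ta (FreeGroup.of 1)) = incl w (FreeGroup.of 1)
          rw [ta_one]
          simp only [map_mul, map_inv]
          rw [hγ0, hγ1]
          have := eq_inv_of_mul_eq_one_right hr
          rw [this]
          group
      · apply FreeGroup.ext_hom
        intro i
        fin_cases i
        show γ (β (QuotientGroup.mk' _ (unknown _))) = QuotientGroup.mk' _ (unknown _)
        rw [hβt, hγ1]
    · apply FreeGroup.ext_hom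
      intro i
      fin_cases i
      · show β (γ (FreeGroup.of 0)) = FreeGroup.of 0
        rw [hγ0, hβ, ta_zero]
      · show β (γ (FreeGroup.of 1)) = FreeGroup.of 1
        rw [hγ1, hβt]

end Pool.Agent.Results.MP_9999b4_al.FreeQuotients
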